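import Mathlib

/-!
The largest cardinality of a subset of the sphere of radius `n` in the free group of rank `r`
that freely generates a subgroup: `(2r-1)^(n/2)` for even `n`, `r(2r-1)^((n-1)/2)` for odd `n`.
-/

namespace Pool.Agent.Results.MP_689404_al.SphereRank.Core



section last
variable {α : Type*} [DecidableEq α]

/-- the last letter of the reduced word of `w` -/
def lastLetter (w : FreeGroup α) : Option (α × Bool) := w.toWord.getLast?

theorem lastLetter_one : lastLetter (1 : FreeGroup α) = none := by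
  simp [lastLetter]

theorem lastLetter_of_mul (a b : α) (w : FreeGroup α) :
    (lastLetter (FreeGroup.of b * w) = some (a, true)) ↔
      (lastLetter w = some (a, true) ∨ (w = 1 ∧ b = a)) := by
  unfold lastLetter
  have h1 : (FreeGroup.of b * w).toWord = FreeGroup.reduce ((b, true) :: w.toWord) := by
    rw [FreeGroup.toWord_mul, FreeGroup.toWord_of]
    rfl
  rw [h1, FreeGroup.reduce.cons, FreeGroup.reduce_toWord]
  rw [← FreeGroup.toWord_eq_nil_iff (x := w)]
  rcases hw : w.toWord with _ | ⟨hd, tl⟩
  · simp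
  · simp only
    split_ifs with hc
    · rcases tl with _ | ⟨hd2, tl2⟩
      · obtain ⟨hd1, hd2⟩ := hd
        simp at hc
        simp [hc.2]
      · simp
    · simp

theorem not_both (a b : α) (w : FreeGroup α) (h : w = 1 ∧ b = a) :
    lastLetter w ≠ some (a, true) := by
  rw [h.1, lastLetter_one]; simp

end last

section core
variable {ι G : Type*} [DecidableEq ι] [Group G] (f : ι → G)

open Classical in
noncomputable def phi (g : G) (a : ι) (w : G) : ℚ :=
  if ∃ u : FreeGroup ι, FreeGroup.lift f u * g = w ∧ lastLetter u = some (a, true) then 1 else 0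

theorem phi_diff (hf : Function.Injective (FreeGroup.lift f)) (g : G) (a : ι) (b : ι) (w : G)
    [Decidable (w = g ∧ b = a)] :
    phi f g a (f b * w) - phi f g a w = if w = g ∧ b = a then 1 else 0 := by
  classical
  by_cases hw : ∃ u : FreeGroup ι, FreeGroup.lift f u * g = w
  · obtain ⟨u, hu⟩ := hw
    have e1 : (∃ v : FreeGroup ι, FreeGroup.lift f v * g = w ∧ lastLetter v = some (a, true)) ↔
        lastLetter u = some (a, true) := by
      constructor
      · rintro ⟨v, hv, hl⟩
        have : v = u := by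
          apply hf
          have := hv.trans hu.symm
          exact mul_right_cancel this
        rwa [this] at hl
      · intro hl
        exact ⟨u, hu, hl⟩
    have hu2 : FreeGroup.lift f (FreeGroup.of b * u) * g = f b * w := by
      rw [map_mul, FreeGroup.lift_apply_of, mul_assoc, hu]
    have e2 : (∃ v : FreeGroup ι, FreeGroup.lift f v * g = f b * w ∧
        lastLetter v = some (a, true)) ↔ lastLetter (FreeGroup.of b * u) = some (a, true) := by
      constructor
      · rintro ⟨v, hv, hl⟩
        have : v = FreeGroup.of b * u := by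
          apply hf
          have := hv.trans hu2.symm
          exact mul_right_cancel this
        rwa [this] at hl
      · intro hl
        exact ⟨_, hu2, hl⟩
    have e3 : w = g ↔ u = 1 := by
      constructor
      · intro h
        apply hf
        rw [map_one]
        rw [h] at hu
        simpa using hu
      · intro h
        rw [h] at hu
        simpa using hu.symm
    unfold phi
    simp only [e3]
    simp only [e1, e2, lastLetter_of_mul]
    have := not_both a b u
    by_cases c1 : u = 1 ∧ b = a
    · have := this c1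
      simp [c1, lastLetter_one]
    · simp [c1]
  · have n1 : ¬ ∃ v : FreeGroup ι, FreeGroup.lift f v * g = w ∧ lastLetter v = some (a, true) := by
      rintro ⟨v, hv, -⟩
      exact hw ⟨v, hv⟩
    have n2 : ¬ ∃ v : FreeGroup ι, FreeGroup.lift f v * g = f b * w ∧
        lastLetter v = some (a, true) := by
      rintro ⟨v, hv, -⟩
      refine hw ⟨(FreeGroup.of b)⁻¹ * v, ?_⟩
      rw [map_mul, map_inv, FreeGroup.lift_apply_of, mul_assoc, hv]
      group
    have n3 : ¬ (w = g ∧ b = a) := by
      rintro ⟨h, -⟩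
      exact hw ⟨1, by simp [h]⟩
    unfold phi
    rw [if_neg n1, if_neg n2, if_neg n3]
    simp

theorem card_le (hf : Function.Injective (FreeGroup.lift f)) (I : Finset (G × ι)) (V : Finset G)
    (h : ∀ p ∈ I, p.1 ∈ V ∧ f p.2 * p.1 ∈ V) : I.card ≤ V.card := by
  classical
  let T : (V → ℚ) →ₗ[ℚ] (I → ℚ) :=
    { toFun := fun x i => x ⟨f i.1.2 * i.1.1, (h i.1 i.2).2⟩ - x ⟨i.1.1, (h i.1 i.2).1⟩
      map_add' := by
        intro x y
        ext i
        simp only [Pi.add_apply]
        ring
      map_smul' := by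
        intro c x
        ext i
        simp only [Pi.smul_apply, smul_eq_mul, RingHom.id_apply]
        ring }
  have hT : Function.Surjective T := by
    intro y
    refine ⟨fun v => ∑ i : I, y i * phi f i.1.1 i.1.2 v.1, ?_⟩
    ext j
    change (∑ i : I, y i * phi f i.1.1 i.1.2 (f j.1.2 * j.1.1)) -
      (∑ i : I, y i * phi f i.1.1 i.1.2 j.1.1) = y j
    rw [← Finset.sum_sub_distrib]
    have : ∀ i : I, y i * phi f i.1.1 i.1.2 (f j.1.2 * j.1.1) - y i * phi f i.1.1 i.1.2 j.1.1 =
        if j = i then y i else 0 := by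
      intro i
      rw [← mul_sub, phi_diff f hf]
      have : (j.1.1 = i.1.1 ∧ j.1.2 = i.1.2) ↔ j = i := by
        rw [Subtype.ext_iff, Prod.ext_iff]
      simp only [this]
      split_ifs <;> simp
    rw [Finset.sum_congr rfl (fun i _ => this i)]
    simp
  have := card_le_of_surjective ℚ T hT
  simpa using this

end core

end Pool.Agent.Results.MP_689404_al.SphereRank.Core

namespace Pool.Agent.Results.MP_689404_al.SphereRank.Count

open Finset

variable {r : ℕ}

/-- reduced words of length `n + 1` with first letter `z` -/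
def W (r : ℕ) : ℕ → (Fin r × Bool) → Finset (List (Fin r × Bool))
  | 0, z => {[z]}
  | n + 1, z => (univ.filter (fun y : Fin r × Bool => y ≠ (z.1, !z.2))).biUnion
      (fun y => (W r n y).image (List.cons z))

theorem mem_W (n : ℕ) (z : Fin r × Bool) (L : List (Fin r × Bool)) :
    L ∈ W r n z ↔ L.length = n + 1 ∧ FreeGroup.IsReduced L ∧ L.head? = some z := by
  induction n generalizing z L with
  | zero =>
    simp only [W, mem_singleton]
    constructor
    · rintro rfl
      simp
    · rintro ⟨h1, h2, h3⟩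
      rcases L with _ | ⟨a, _ | ⟨b, L⟩⟩
      · simp at h1
      · simpa using h3
      · simp at h1
  | succ n ih =>
    simp only [W, mem_biUnion, mem_filter, mem_univ, true_and, mem_image, ih]
    constructor
    · rintro ⟨y, hy, M, ⟨h1, h2, h3⟩, rfl⟩
      refine ⟨by simp [h1], ?_, by simp⟩
      rcases M with _ | ⟨b, M⟩
      · simp at h1
      · simp at h3
        subst h3
        rw [FreeGroup.isReduced_cons_cons]
        refine ⟨?_, h2⟩
        intro h
        by_contra hne
        apply hy
        obtain ⟨z1, z2⟩ := z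
        obtain ⟨b1, b2⟩ := b
        simp only at h hne
        subst h
        cases z2 <;> cases b2 <;> simp_all
    · rintro ⟨h1, h2, h3⟩
      rcases L with _ | ⟨a, _ | ⟨b, M⟩⟩
      · simp at h1
      · simp at h1
      · simp at h3
        subst h3
        rw [FreeGroup.isReduced_cons_cons] at h2
        refine ⟨b, ?_, b :: M, ⟨by simpa using h1, h2.2, by simp⟩, rfl⟩
        rintro rfl
        simpa using h2.1 rfl

theorem card_W (n : ℕ) (z : Fin r × Bool) : (W r n z).card = (2 * r - 1) ^ n := by
  induction n generalizing z with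
  | zero => simp [W]
  | succ n ih =>
    simp only [W]
    rw [card_biUnion]
    · have : ∀ y : Fin r × Bool, ((W r n y).image (List.cons z)).card = (2 * r - 1) ^ n := by
        intro y
        rw [card_image_of_injective _ (List.cons_injective), ih]
      simp only [this, sum_const, smul_eq_mul]
      rw [filter_ne' univ, card_erase_of_mem (mem_univ _)]
      simp only [card_univ, Fintype.card_prod, Fintype.card_fin, Fintype.card_bool]
      rw [mul_comm r 2, pow_succ]
      ring
    · intro y _ y' _ hne
      rw [Function.onFun, disjoint_left]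
      intro L h1 h2
      rw [mem_image] at h1 h2
      obtain ⟨M, hM, rfl⟩ := h1
      obtain ⟨M', hM', h⟩ := h2
      have := List.cons_injective h
      subst this
      rw [mem_W] at hM hM'
      have := hM.2.2.symm.trans hM'.2.2
      exact hne (by simpa using this)

/-- group elements of norm `n + 1` whose first letter is `z` -/
def S (r n : ℕ) (z : Fin r × Bool) : Finset (FreeGroup (Fin r)) := (W r n z).image FreeGroup.mk

theorem mem_S (n : ℕ) (z : Fin r × Bool) (g : FreeGroup (Fin r)) :
    g ∈ S r n z ↔ g.norm = n + 1 ∧ g.toWord.head? = some z := by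
  simp only [S, mem_image, mem_W]
  constructor
  · rintro ⟨L, ⟨h1, h2, h3⟩, rfl⟩
    rw [FreeGroup.norm, FreeGroup.toWord_mk, h2.reduce_eq]
    exact ⟨h1, h3⟩
  · rintro ⟨h1, h3⟩
    exact ⟨g.toWord, ⟨h1, FreeGroup.isReduced_toWord, h3⟩, FreeGroup.mk_toWord⟩

theorem card_S (n : ℕ) (z : Fin r × Bool) : (S r n z).card = (2 * r - 1) ^ n := by
  rw [S, card_image_of_injOn, card_W]
  intro L hL M hM h
  simp only [mem_coe, mem_W] at hL hM
  have := congrArg FreeGroup.toWord h
  rwa [FreeGroup.toWord_mk, FreeGroup.toWord_mk, hL.2.1.reduce_eq, hM.2.1.reduce_eq] at this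

/-- the ball of radius `n` -/
def ball (r : ℕ) : ℕ → Finset (FreeGroup (Fin r))
  | 0 => {1}
  | n + 1 => ball r n ∪ univ.biUnion (fun z => S r n z)

theorem mem_ball (n : ℕ) (g : FreeGroup (Fin r)) : g ∈ ball r n ↔ g.norm ≤ n := by
  induction n with
  | zero => simp [ball]
  | succ n ih =>
    simp only [ball, mem_union, ih, mem_biUnion, mem_univ, true_and, mem_S]
    constructor
    · rintro (h | ⟨z, h, -⟩) <;> omega
    · intro h
      by_cases h' : g.norm ≤ n
      · exact Or.inl h'
      · have h2 : g.norm = n + 1 := by omega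
        right
        rcases hg : g.toWord with _ | ⟨z, L⟩
        · rw [FreeGroup.norm, hg] at h2
          simp at h2
        · exact ⟨z, h2, by simp⟩

/-- `1 + q + ... + q^(n-1)` with `q = 2r-1` -/
def e (r n : ℕ) : ℕ := ∑ j ∈ range n, (2 * r - 1) ^ j

theorem card_ball (n : ℕ) : (ball r n).card = 1 + 2 * r * e r n := by
  induction n with
  | zero => simp [ball, e]
  | succ n ih =>
    rw [ball, card_union_of_disjoint, ih, card_biUnion]
    · simp only [card_S, sum_const, card_univ, Fintype.card_prod, Fintype.card_fin,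
        Fintype.card_bool, smul_eq_mul, e, sum_range_succ]
      ring
    · intro y _ y' _ hne
      rw [Function.onFun, disjoint_left]
      intro L h1 h2
      rw [mem_S] at h1 h2
      have := h1.2.symm.trans h2.2
      exact hne (by simpa using this)
    · rw [disjoint_left]
      intro g h1 h2
      simp only [mem_biUnion, mem_univ, true_and, mem_S] at h2
      rw [mem_ball] at h1
      obtain ⟨z, h2, -⟩ := h2
      omega

theorem e_add (r n k : ℕ) : e r (n + k) = (2 * r - 1) ^ k * e r n + e r k := by
  rw [e, add_comm n k, sum_range_add, e, e, mul_sum, add_comm]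
  congr 1
  apply sum_congr rfl
  intro x _
  rw [pow_add]

theorem le_e (r n : ℕ) (hr : 1 ≤ r) : n ≤ e r n := by
  have : ∑ j ∈ range n, 1 ≤ e r n := by
    apply sum_le_sum
    intro j _
    exact Nat.one_le_pow _ _ (by omega)
  simpa using this

/-- translates: `g` in the ball of radius `n+1` with `y * g` in this ball also -/
def tr (r n : ℕ) (y : Fin r × Bool) : Finset (FreeGroup (Fin r)) :=
  ball r n ∪ S r n (y.1, !y.2)

theorem card_tr (n : ℕ) (hr : 1 ≤ r) (y : Fin r × Bool) : (tr r n y).card = 2 * e r (n + 1) := by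
  rw [tr, card_union_of_disjoint, card_ball, card_S]
  · have h1 : e r (n + 1) = e r n + (2 * r - 1) ^ n := by
      rw [e, sum_range_succ, e]
    have h2 : e r (1 + n) = (2 * r - 1) ^ n * e r 1 + e r n := e_add r 1 n
    have h4 := e_add r n 1
    have h5 : e r 1 = 1 := by simp [e]
    obtain ⟨q, rfl⟩ : ∃ q, r = q + 1 := ⟨r - 1, by omega⟩
    have h6 : 2 * (q + 1) - 1 = 2 * q + 1 := by omega
    rw [pow_one, h5, h6] at h4
    rw [h6] at h1
    rw [h6]
    linarith
  · rw [disjoint_left]
    intro g h1 h2
    rw [mem_S] at h2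
    rw [mem_ball] at h1
    omega

theorem norm_tr (n : ℕ) (y : Fin r × Bool) (g : FreeGroup (Fin r)) (hg : g ∈ tr r n y) :
    g.norm ≤ n + 1 ∧ (FreeGroup.mk [y] * g).norm ≤ n + 1 := by
  rw [tr, mem_union, mem_ball, mem_S] at hg
  have hy : (FreeGroup.mk [y]).norm ≤ 1 := FreeGroup.norm_mk_le
  rcases hg with h | ⟨h1, h2⟩
  · refine ⟨by omega, ?_⟩
    have := FreeGroup.norm_mul_le (FreeGroup.mk [y]) g
    omega
  · refine ⟨by omega, ?_⟩
    rw [FreeGroup.norm] at h1 ⊢
    rcases hw : g.toWord with _ | ⟨z, L⟩
    · rw [hw] at h1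
      simp at h1
    · rw [hw] at h1 h2
      simp at h2
      subst h2
      rw [FreeGroup.toWord_mul, FreeGroup.toWord_mk, hw]
      have hL : FreeGroup.reduce ([y] ++ (y.1, !y.2) :: L) = FreeGroup.reduce L := by
        apply FreeGroup.reduce.Step.eq
        exact FreeGroup.Red.Step.cons_not (x := y.1) (b := y.2)
      have h3 : FreeGroup.reduce (FreeGroup.reduce [y] ++ (y.1, !y.2) :: L) =
          FreeGroup.reduce L := by
        rw [← hL]
        rfl
      rw [h3]
      have h4 := FreeGroup.norm_mk_le (L₁ := L)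
      rw [FreeGroup.norm, FreeGroup.toWord_mk] at h4
      simp at h1
      omega

end Pool.Agent.Results.MP_689404_al.SphereRank.Count

namespace Pool.Agent.Results.MP_689404_al.SphereRank.Upper

open Finset Pool.Agent.Results.MP_689404_al.SphereRank.Count Pool.Agent.Results.MP_689404_al.SphereRank.Core

theorem gen {G : Type*} [Group G] [DecidableEq G] (A : Finset G)
    (hf : Function.Injective (FreeGroup.lift (fun a : A => (a : G)))) (t : ℕ) (V : Finset G)
    (h : ∀ a ∈ A, ∃ (p : G) (T : Finset G), t ≤ T.card ∧ ∀ g ∈ T, p * g ∈ V ∧ a * (p * g) ∈ V) :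
    A.card * t ≤ V.card := by
  classical
  have h' : ∀ a : A, ∃ (p : G) (T : Finset G), t ≤ T.card ∧
      ∀ g ∈ T, p * g ∈ V ∧ (a : G) * (p * g) ∈ V := fun a => h a a.2
  choose p T hT hV using h'
  let I : Finset (G × A) := univ.biUnion (fun a : A => (T a).image (fun g => (p a * g, a)))
  have hI : A.card * t ≤ I.card := by
    rw [card_biUnion]
    · calc A.card * t = ∑ a : A, t := by simp
        _ ≤ _ := by
          apply sum_le_sum
          intro a _
          rw [card_image_of_injective]
          · exact hT a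
          · intro g g' hgg
            simpa using hgg
    · intro a _ b _ hne
      rw [Function.onFun, disjoint_left]
      intro x h1 h2
      rw [mem_image] at h1 h2
      obtain ⟨g, -, rfl⟩ := h1
      obtain ⟨g', -, h⟩ := h2
      exact hne (Prod.ext_iff.1 h).2.symm
  refine hI.trans (card_le _ hf I V ?_)
  intro x hx
  simp only [I, mem_biUnion, mem_univ, true_and, mem_image] at hx
  obtain ⟨a, g, hg, rfl⟩ := hx
  exact hV a g hg

theorem split_even {r : ℕ} (a : FreeGroup (Fin r)) (k : ℕ) (ha : a.norm ≤ 2 * k) :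
    ∃ p : FreeGroup (Fin r), ∀ (L : ℕ), ∀ g ∈ ball r L,
      p * g ∈ ball r (L + k) ∧ a * (p * g) ∈ ball r (L + k) := by
  refine ⟨(FreeGroup.mk (a.toWord.drop k))⁻¹, ?_⟩
  intro L g hg
  rw [mem_ball] at hg
  simp only [mem_ball]
  have h1 : (FreeGroup.mk (a.toWord.drop k)).norm ≤ k := by
    refine FreeGroup.norm_mk_le.trans ?_
    rw [List.length_drop]
    rw [FreeGroup.norm] at ha
    omega
  have h2 : (FreeGroup.mk (a.toWord.take k)).norm ≤ k := by
    refine FreeGroup.norm_mk_le.trans ?_
    rw [List.length_take]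
    omega
  have h3 : a = FreeGroup.mk (a.toWord.take k) * FreeGroup.mk (a.toWord.drop k) := by
    rw [FreeGroup.mul_mk, List.take_append_drop, FreeGroup.mk_toWord]
  constructor
  · refine (FreeGroup.norm_mul_le _ _).trans ?_
    rw [FreeGroup.norm_inv_eq]
    omega
  · have : a * ((FreeGroup.mk (a.toWord.drop k))⁻¹ * g) = FreeGroup.mk (a.toWord.take k) * g := by
      generalize FreeGroup.mk (a.toWord.drop k) = x at *
      generalize FreeGroup.mk (a.toWord.take k) = z at *
      subst h3
      group
    rw [this]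
    refine (FreeGroup.norm_mul_le _ _).trans ?_
    omega

theorem split_odd {r : ℕ} (a : FreeGroup (Fin r)) (k : ℕ) (ha : a.norm = 2 * k + 1) :
    ∃ (p : FreeGroup (Fin r)) (y : Fin r × Bool), ∀ (L : ℕ), ∀ g ∈ tr r L y,
      p * g ∈ ball r (L + 1 + k) ∧ a * (p * g) ∈ ball r (L + 1 + k) := by
  rw [FreeGroup.norm] at ha
  have hk : k < a.toWord.length := by omega
  have h3 : a = FreeGroup.mk (a.toWord.take k) * (FreeGroup.mk [a.toWord[k]] *
      FreeGroup.mk (a.toWord.drop (k + 1))) := by
    rw [FreeGroup.mul_mk, FreeGroup.mul_mk]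
    have : [a.toWord[k]] ++ a.toWord.drop (k + 1) = a.toWord.drop k := by
      rw [List.drop_eq_getElem_cons hk]
      rfl
    rw [this, List.take_append_drop, FreeGroup.mk_toWord]
  refine ⟨(FreeGroup.mk (a.toWord.drop (k + 1)))⁻¹, a.toWord[k], ?_⟩
  intro L g hg
  have hg' := norm_tr _ _ _ hg
  simp only [mem_ball]
  have h1 : (FreeGroup.mk (a.toWord.drop (k + 1))).norm ≤ k := by
    refine FreeGroup.norm_mk_le.trans ?_
    rw [List.length_drop]
    omega
  have h2 : (FreeGroup.mk (a.toWord.take k)).norm ≤ k := by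
    refine FreeGroup.norm_mk_le.trans ?_
    rw [List.length_take]
    omega
  constructor
  · refine (FreeGroup.norm_mul_le _ _).trans ?_
    rw [FreeGroup.norm_inv_eq]
    omega
  · have : a * ((FreeGroup.mk (a.toWord.drop (k + 1)))⁻¹ * g) =
        FreeGroup.mk (a.toWord.take k) * (FreeGroup.mk [a.toWord[k]] * g) := by
      generalize FreeGroup.mk (a.toWord.drop (k + 1)) = x at *
      generalize FreeGroup.mk (a.toWord.take k) = z at *
      generalize FreeGroup.mk [a.toWord[k]] = w at *
      subst h3
      group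
    rw [this]
    refine (FreeGroup.norm_mul_le _ _).trans ?_
    omega

theorem upper_even {r : ℕ} (hr : 1 ≤ r) (k : ℕ) (A : Finset (FreeGroup (Fin r)))
    (hA : ∀ a ∈ A, a.norm ≤ 2 * k)
    (hf : Function.Injective (FreeGroup.lift (fun a : A => (a : FreeGroup (Fin r))))) :
    A.card ≤ (2 * r - 1) ^ k := by
  classical
  by_contra hcon
  push Not at hcon
  have h1 : A.card * (ball r (e r k + 1)).card ≤ (ball r (e r k + 1 + k)).card := by
    apply gen A hf
    intro a ha
    obtain ⟨p, hp⟩ := split_even a k (hA a ha)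
    exact ⟨p, ball r (e r k + 1), le_rfl, fun g hg => hp _ g hg⟩
  rw [card_ball, card_ball, e_add r (e r k + 1) k] at h1
  have h2 : e r k + 1 ≤ e r (e r k + 1) := le_e r _ hr
  generalize e r (e r k + 1) = E at *
  generalize e r k = f at *
  generalize (2 * r - 1) ^ k = Q at *
  have h3 : (Q + 1) * (1 + 2 * r * E) ≤ A.card * (1 + 2 * r * E) :=
    Nat.mul_le_mul_right _ hcon
  have h4 : 2 * r * (f + 1) ≤ 2 * r * E := Nat.mul_le_mul_left _ h2
  nlinarith

theorem upper_odd {r : ℕ} (hr : 1 ≤ r) (k : ℕ) (A : Finset (FreeGroup (Fin r)))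
    (hA : ∀ a ∈ A, a.norm ≤ 2 * k + 1)
    (hf : Function.Injective (FreeGroup.lift (fun a : A => (a : FreeGroup (Fin r))))) :
    A.card ≤ r * (2 * r - 1) ^ k := by
  classical
  by_contra hcon
  push Not at hcon
  set L := 2 * r * e r k + 1 with hL
  have h1 : A.card * (2 * e r (L + 1)) ≤ (ball r (L + 1 + k)).card := by
    apply gen A hf
    intro a ha
    by_cases h : a.norm ≤ 2 * k
    · obtain ⟨p, hp⟩ := split_even a k h
      refine ⟨p, ball r (L + 1), ?_, fun g hg => hp _ g hg⟩
      rw [card_ball]
      nlinarith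
    · obtain ⟨p, y, hp⟩ := split_odd a k (by have := hA a ha; omega)
      refine ⟨p, tr r L y, ?_, fun g hg => hp _ g hg⟩
      rw [card_tr _ hr]
  rw [card_ball, e_add r (L + 1) k] at h1
  have h2 : L + 1 ≤ e r (L + 1) := le_e r _ hr
  generalize e r (L + 1) = E at *
  generalize e r k = f at *
  generalize (2 * r - 1) ^ k = Q at *
  have h3 : (r * Q + 1) * (2 * E) ≤ A.card * (2 * E) :=
    Nat.mul_le_mul_right _ hcon
  nlinarith

end Pool.Agent.Results.MP_689404_al.SphereRank.Upper

namespace Pool.Agent.Results.MP_689404_al.SphereRank.Lower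

open Finset Pool.Agent.Results.MP_689404_al.SphereRank.Count

theorem free_of_pingpong {ι G : Type*} [Group G] [DecidableEq ι] (f : ι → G)
    (Z : ι × Bool → Set G) (h1 : ∀ x, (1 : G) ∉ Z x)
    (h2 : ∀ (i : ι) (b : Bool) (g : G), g ∉ Z (i, !b) → (cond b (f i) (f i)⁻¹) * g ∈ Z (i, b))
    (h3 : ∀ x y, x ≠ y → Disjoint (Z x) (Z y)) : Function.Injective (FreeGroup.lift f) := by
  have key : ∀ (L : List (ι × Bool)), FreeGroup.IsReduced L → ∀ x M, L = x :: M →
      FreeGroup.lift f (FreeGroup.mk L) ∈ Z x := by
    intro L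
    induction L with
    | nil => intro _ x M h; simp at h
    | cons z L ih =>
      intro hred x M h
      obtain ⟨rfl, rfl⟩ := List.cons_eq_cons.1 h
      have e : FreeGroup.lift f (FreeGroup.mk (z :: L)) =
          (cond z.2 (f z.1) (f z.1)⁻¹) * FreeGroup.lift f (FreeGroup.mk L) := by
        simp [FreeGroup.lift_mk]
      rw [e]
      apply h2
      rcases L with _ | ⟨y, N⟩
      · simpa [FreeGroup.lift_mk] using h1 _
      · rw [FreeGroup.isReduced_cons_cons] at hred
        have h4 := ih hred.2 y N rfl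
        have h5 : y ≠ (z.1, !z.2) := by
          rintro rfl
          simpa using hred.1 rfl
        exact Set.disjoint_left.1 (h3 _ _ h5) h4
  rw [injective_iff_map_eq_one]
  intro w hw
  rcases hL : w.toWord with _ | ⟨x, M⟩
  · exact FreeGroup.toWord_eq_nil_iff.1 hL
  · exfalso
    have := key w.toWord FreeGroup.isReduced_toWord x M hL
    rw [FreeGroup.mk_toWord, hw] at this
    exact h1 _ this

section words
variable {α : Type*} [DecidableEq α]

theorem isReduced_invRev {L : List (α × Bool)} (h : FreeGroup.IsReduced L) :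
    FreeGroup.IsReduced (FreeGroup.invRev L) := by
  rw [FreeGroup.isReduced_iff_reduce_eq] at h ⊢
  rw [FreeGroup.reduce_invRev, h]

theorem step (P Q : List (α × Bool)) (c : α × Bool) (hP : FreeGroup.IsReduced (P ++ [c]))
    (hQ : FreeGroup.IsReduced (Q ++ [(c.1, !c.2)])) (g : FreeGroup α)
    (hg : ¬ (Q ++ [(c.1, !c.2)]) <+: g.toWord) :
    (P ++ [c]) <+: (FreeGroup.mk (P ++ [c]) * (FreeGroup.mk Q)⁻¹ * g).toWord := by
  set h := (FreeGroup.mk Q)⁻¹ * g with hh
  have hgh : g = FreeGroup.mk Q * h := by rw [hh]; group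
  have hred : FreeGroup.IsReduced h.toWord := FreeGroup.isReduced_toWord
  have h2 : FreeGroup.IsReduced ([c] ++ h.toWord) := by
    rcases hM : h.toWord with _ | ⟨d, M⟩
    · simp
    · rw [hM] at hred
      rw [List.singleton_append, FreeGroup.isReduced_cons_cons]
      refine ⟨?_, hred⟩
      intro h1
      by_contra hne
      have hd : d = (c.1, !c.2) := by
        apply Prod.ext
        · exact h1.symm
        · exact Bool.eq_not_of_ne (fun h => hne h.symm)
      apply hg
      have h3 : FreeGroup.IsReduced (Q ++ [(c.1, !c.2)] ++ M) := by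
        apply FreeGroup.IsReduced.append_overlap hQ _ (by simp)
        rw [← hd]
        exact hred
      have h4 : g = FreeGroup.mk (Q ++ [(c.1, !c.2)] ++ M) := by
        rw [hgh, ← FreeGroup.mk_toWord (x := h), hM, FreeGroup.mul_mk, hd]
        simp
      rw [h4, FreeGroup.toWord_mk, h3.reduce_eq]
      exact List.prefix_append _ _
  have h3 : FreeGroup.IsReduced (P ++ [c] ++ h.toWord) :=
    FreeGroup.IsReduced.append_overlap hP h2 (by simp)
  have h4 : FreeGroup.mk (P ++ [c]) * (FreeGroup.mk Q)⁻¹ * g =
      FreeGroup.mk (P ++ [c] ++ h.toWord) := by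
    rw [mul_assoc, ← hh]
    conv_lhs => rw [← FreeGroup.mk_toWord (x := h), FreeGroup.mul_mk]
  rw [h4, FreeGroup.toWord_mk, h3.reduce_eq]
  exact List.prefix_append _ _

omit [DecidableEq α] in
theorem elt_inv (P Q : List (α × Bool)) (c : α × Bool) :
    (FreeGroup.mk (P ++ [c]) * (FreeGroup.mk Q)⁻¹)⁻¹ =
      FreeGroup.mk (Q ++ [(c.1, !c.2)]) * (FreeGroup.mk P)⁻¹ := by
  rw [← FreeGroup.mul_mk, ← FreeGroup.mul_mk]
  have : (FreeGroup.mk [(c.1, !c.2)]) = (FreeGroup.mk [c])⁻¹ := by
    rw [FreeGroup.inv_mk]
    rfl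
  rw [this]
  group

theorem norm_elt (P Q : List (α × Bool)) (c : α × Bool) (hP : FreeGroup.IsReduced (P ++ [c]))
    (hQ : FreeGroup.IsReduced (Q ++ [(c.1, !c.2)])) :
    (FreeGroup.mk (P ++ [c]) * (FreeGroup.mk Q)⁻¹).norm = P.length + 1 + Q.length := by
  have h1 : FreeGroup.IsReduced ([c] ++ FreeGroup.invRev Q) := by
    have := isReduced_invRev hQ
    rw [FreeGroup.invRev_append] at this
    have e : FreeGroup.invRev [(c.1, !c.2)] = [c] := by
      simp [FreeGroup.invRev]
    rwa [e] at this
  have h2 : FreeGroup.IsReduced (P ++ [c] ++ FreeGroup.invRev Q) :=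
    FreeGroup.IsReduced.append_overlap hP h1 (by simp)
  rw [FreeGroup.inv_mk, FreeGroup.mul_mk, FreeGroup.norm, FreeGroup.toWord_mk, h2.reduce_eq]
  simp only [List.length_append, List.length_singleton, FreeGroup.invRev_length]

/-- the prefix words of the two kinds -/
def pre {J : Type*} (P Q : J → List (α × Bool)) (c : J → α × Bool) : J × Bool → List (α × Bool)
  | (j, true) => P j ++ [c j]
  | (j, false) => Q j ++ [((c j).1, !(c j).2)]

theorem free_family {J : Type*} [DecidableEq J] (P Q : J → List (α × Bool)) (c : J → α × Bool)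
    (hP : ∀ j, FreeGroup.IsReduced (P j ++ [c j]))
    (hQ : ∀ j, FreeGroup.IsReduced (Q j ++ [((c j).1, !(c j).2)]))
    (hinc : ∀ x y : J × Bool, pre P Q c x <+: pre P Q c y → x = y) :
    Function.Injective (FreeGroup.lift
      (fun j => FreeGroup.mk (P j ++ [c j]) * (FreeGroup.mk (Q j))⁻¹)) := by
  apply free_of_pingpong _ (fun x => {g : FreeGroup α | pre P Q c x <+: g.toWord})
  · rintro ⟨j, b⟩ h
    cases b <;> simp [pre] at h
  · rintro j b g hg
    cases b
    · simp only [Bool.not_false, Set.mem_ofPred_eq, pre, cond_false] at hg ⊢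
      rw [elt_inv]
      apply step _ _ _ (hQ j)
      · simpa using hP j
      · simpa using hg
    · simp only [Bool.not_true, Set.mem_ofPred_eq, pre, cond_true] at hg ⊢
      exact step _ _ _ (hP j) (hQ j) g hg
  · intro x y hxy
    rw [Set.disjoint_left]
    intro g h1 h2
    rcases List.prefix_or_prefix_of_prefix h1 h2 with h | h
    · exact hxy (hinc _ _ h)
    · exact hxy (hinc _ _ h).symm

end words

variable {r : ℕ}

/-- words `P` of length `k` with `P ++ [z]` reduced -/
def D (r k : ℕ) (z : Fin r × Bool) : Finset (List (Fin r × Bool)) :=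
  (W r k (z.1, !z.2)).image (fun L => FreeGroup.invRev L.tail)

theorem mem_D (k : ℕ) (z : Fin r × Bool) (P : List (Fin r × Bool)) :
    P ∈ D r k z ↔ P.length = k ∧ FreeGroup.IsReduced (P ++ [z]) := by
  simp only [D, mem_image, mem_W]
  constructor
  · rintro ⟨L, ⟨h1, h2, h3⟩, rfl⟩
    rcases L with _ | ⟨y, M⟩
    · simp at h1
    · simp at h3
      subst h3
      simp at h1
      refine ⟨by simp [h1], ?_⟩
      have := isReduced_invRev h2
      rw [FreeGroup.invRev_cons] at this
      simpa [FreeGroup.invRev] using this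
  · rintro ⟨h1, h2⟩
    refine ⟨FreeGroup.invRev (P ++ [z]), ⟨by
      rw [FreeGroup.invRev_length, List.length_append, h1]; rfl, isReduced_invRev h2, ?_⟩, ?_⟩
    · rw [FreeGroup.invRev_append]
      simp [FreeGroup.invRev]
    · rw [FreeGroup.invRev_append]
      simp [FreeGroup.invRev, Function.comp_def]

theorem card_D (k : ℕ) (z : Fin r × Bool) : (D r k z).card = (2 * r - 1) ^ k := by
  rw [D, card_image_of_injOn, card_W]
  intro L hL M hM h
  simp only [mem_coe, mem_W] at hL hM
  have h1 := FreeGroup.invRev_injective h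
  obtain ⟨-, -, h2⟩ := hL
  obtain ⟨-, -, h3⟩ := hM
  rcases L with _ | ⟨y, L⟩
  · simp at h2
  rcases M with _ | ⟨y', M⟩
  · simp at h3
  simp at h1 h2 h3
  rw [h1, h2, h3]

end Pool.Agent.Results.MP_689404_al.SphereRank.Lower

namespace Pool.Agent.Results.MP_689404_al.SphereRank.Constr

open Finset Pool.Agent.Results.MP_689404_al.SphereRank.Count Pool.Agent.Results.MP_689404_al.SphereRank.Lower

theorem transfer {J G : Type*} [Fintype J] [DecidableEq J] [DecidableEq G] [Group G] (f : J → G)
    (hf : Function.Injective (FreeGroup.lift f)) :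
    Function.Injective (FreeGroup.lift (fun a : (univ.image f : Finset G) => (a : G))) ∧
      (univ.image f).card = Fintype.card J := by
  have hinj : Function.Injective f := by
    intro a b h
    apply FreeGroup.of_injective
    apply hf
    simpa using h
  constructor
  · let E : J ≃ (univ.image f : Finset G) := Equiv.ofBijective
      (fun j => ⟨f j, mem_image_of_mem f (mem_univ j)⟩) (by
        constructor
        · intro a b h
          exact hinj (congrArg Subtype.val h)
        · rintro ⟨a, ha⟩
          obtain ⟨j, -, hj⟩ := mem_image.1 ha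
          exact ⟨j, Subtype.ext hj⟩)
    have h1 : FreeGroup.lift (fun a : (univ.image f : Finset G) => (a : G)) =
        (FreeGroup.lift f).comp (FreeGroup.freeGroupCongr E.symm).toMonoidHom := by
      ext a
      obtain ⟨j, rfl⟩ := E.surjective a
      simp [E] <;> rfl
    rw [h1]
    exact hf.comp (FreeGroup.freeGroupCongr E.symm).injective
  · rw [card_image_of_injective _ hinj, card_univ]

variable {r : ℕ}

theorem lower_odd (r k : ℕ) : ∃ A : Finset (FreeGroup (Fin r)), (∀ a ∈ A, a.norm = 2 * k + 1) ∧
    Function.Injective (FreeGroup.lift (fun a : A => (a : FreeGroup (Fin r)))) ∧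
    A.card = r * (2 * r - 1) ^ k := by
  classical
  let J := Σ i : Fin r, {x // x ∈ D r k (i, true)}
  have e : ∀ i : Fin r, {x // x ∈ D r k (i, true)} ≃ {x // x ∈ D r k (i, false)} := fun i =>
    Finset.equivOfCardEq (by rw [card_D, card_D])
  let P : J → List (Fin r × Bool) := fun j => j.2.1
  let Q : J → List (Fin r × Bool) := fun j => (e j.1 j.2).1
  let c : J → Fin r × Bool := fun j => (j.1, true)
  have hP' : ∀ j, (P j).length = k ∧ FreeGroup.IsReduced (P j ++ [c j]) := fun j =>
    (mem_D _ _ _).1 j.2.2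
  have hQ' : ∀ j, (Q j).length = k ∧ FreeGroup.IsReduced (Q j ++ [((c j).1, !(c j).2)]) := fun j =>
    (mem_D _ _ _).1 (e j.1 j.2).2
  have hfree := free_family P Q c (fun j => (hP' j).2) (fun j => (hQ' j).2) (by
    rintro ⟨⟨i, x⟩, b⟩ ⟨⟨i', x'⟩, b'⟩ h
    have hl : (pre P Q c (⟨i, x⟩, b)).length = (pre P Q c (⟨i', x'⟩, b')).length := by
      cases b <;> cases b' <;> simp [pre, (hP' _).1, (hQ' _).1]
    have h' := h.eq_of_length hl
    cases b <;> cases b'
    · simp only [pre] at h'
      obtain ⟨h1, h2⟩ := List.append_inj' h' rfl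
      simp only [c, List.cons.injEq, Prod.mk.injEq, and_true] at h2
      subst h2
      simp only [Q] at h1
      have := (e i).injective (Subtype.ext h1)
      rw [this]
    · simp only [pre] at h'
      obtain ⟨h1, h2⟩ := List.append_inj' h' rfl
      simp [c] at h2
    · simp only [pre] at h'
      obtain ⟨h1, h2⟩ := List.append_inj' h' rfl
      simp [c] at h2
    · simp only [pre] at h'
      obtain ⟨h1, h2⟩ := List.append_inj' h' rfl
      simp only [c, List.cons.injEq, Prod.mk.injEq, and_true] at h2
      subst h2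
      simp only [P] at h1
      rw [Subtype.ext h1])
  obtain ⟨h1, h2⟩ := transfer _ hfree
  refine ⟨_, ?_, h1, ?_⟩
  · intro a ha
    obtain ⟨j, -, rfl⟩ := mem_image.1 ha
    rw [norm_elt _ _ _ (hP' j).2 (hQ' j).2, (hP' j).1, (hQ' j).1]
    ring
  · rw [h2]
    simp [J, card_D]

theorem lower_even (r k : ℕ) (hr : 1 ≤ r) :
    ∃ A : Finset (FreeGroup (Fin r)), (∀ a ∈ A, a.norm = 2 * (k + 1)) ∧
    Function.Injective (FreeGroup.lift (fun a : A => (a : FreeGroup (Fin r)))) ∧
    A.card = (2 * r - 1) ^ (k + 1) := by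
  classical
  let z0 : Fin r × Bool := (⟨0, hr⟩, true)
  let J := Σ y : {y : Fin r × Bool // y ≠ z0}, {x // x ∈ D r k y.1}
  have e : ∀ y : {y : Fin r × Bool // y ≠ z0},
      {x // x ∈ D r k y.1} ≃ {x // x ∈ D r k z0} := fun i =>
    Finset.equivOfCardEq (by rw [card_D, card_D])
  let P : J → List (Fin r × Bool) := fun j => j.2.1
  let Q : J → List (Fin r × Bool) := fun j => (e j.1 j.2).1 ++ [z0]
  let c : J → Fin r × Bool := fun j => j.1.1
  have hP' : ∀ j, (P j).length = k ∧ FreeGroup.IsReduced (P j ++ [c j]) := fun j =>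
    (mem_D _ _ _).1 j.2.2
  have hQ' : ∀ j, (Q j).length = k + 1 ∧
      FreeGroup.IsReduced (Q j ++ [((c j).1, !(c j).2)]) := by
    intro j
    obtain ⟨h1, h2⟩ := (mem_D _ _ _).1 (e j.1 j.2).2
    refine ⟨by simp [Q, h1], ?_⟩
    simp only [Q]
    apply FreeGroup.IsReduced.append_overlap h2 _ (by simp)
    rw [List.singleton_append, FreeGroup.isReduced_cons_cons]
    refine ⟨?_, FreeGroup.IsReduced.singleton⟩
    intro h3
    by_contra hne
    apply j.1.2
    apply Prod.ext
    · exact h3.symm
    · have := Bool.eq_not_of_ne hne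
      rw [Bool.not_not] at this
      exact this.symm
  have hfree := free_family P Q c (fun j => (hP' j).2) (fun j => (hQ' j).2) (by
    rintro ⟨⟨i, x⟩, b⟩ ⟨⟨i', x'⟩, b'⟩ h
    cases b <;> cases b'
    · have h' := h.eq_of_length (by simp [pre, (hQ' _).1])
      simp only [pre] at h'
      obtain ⟨h1, h2⟩ := List.append_inj' h' rfl
      have hi : i = i' := by
        simp only [c, List.cons.injEq, Prod.mk.injEq, and_true] at h2
        apply Subtype.ext
        apply Prod.ext
        · exact h2.1
        · simpa using h2.2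
      subst hi
      simp only [Q] at h1
      obtain ⟨h3, -⟩ := List.append_inj' h1 rfl
      have := (e i).injective (Subtype.ext h3)
      rw [this]
    · exfalso
      have := h.length_le
      simp [pre, (hP' _).1, (hQ' _).1] at this
    · exfalso
      simp only [pre] at h
      have h2 : Q ⟨i', x'⟩ <+: Q ⟨i', x'⟩ ++ [((c ⟨i', x'⟩).1, !(c ⟨i', x'⟩).2)] :=
        List.prefix_append _ _
      have h3 := List.prefix_of_prefix_length_le h h2 (by simp [(hP' _).1, (hQ' _).1])
      have h4 := h3.eq_of_length (by simp [(hP' _).1, (hQ' _).1])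
      simp only [Q] at h4
      obtain ⟨-, h5⟩ := List.append_inj' h4 rfl
      simp only [c, List.cons.injEq, and_true] at h5
      exact i.2 h5
    · have h' := h.eq_of_length (by simp [pre, (hP' _).1])
      simp only [pre] at h'
      obtain ⟨h1, h2⟩ := List.append_inj' h' rfl
      have hi : i = i' := by
        simp only [c, List.cons.injEq, and_true] at h2
        exact Subtype.ext h2
      subst hi
      simp only [P] at h1
      rw [Subtype.ext h1])
  obtain ⟨h1, h2⟩ := transfer _ hfree
  refine ⟨_, ?_, h1, ?_⟩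
  · intro a ha
    obtain ⟨j, -, rfl⟩ := mem_image.1 ha
    rw [norm_elt _ _ _ (hP' j).2 (hQ' j).2, (hP' j).1, (hQ' j).1]
    ring
  · rw [h2]
    simp only [J, Fintype.card_sigma, Fintype.card_coe, card_D, sum_const, smul_eq_mul]
    rw [card_univ, Fintype.card_subtype_compl]
    simp only [Fintype.card_prod, Fintype.card_fin, Fintype.card_bool, Fintype.card_unique]
    rw [mul_comm r 2, pow_succ]
    ring

end Pool.Agent.Results.MP_689404_al.SphereRank.Constr

namespace Pool.Agent.Results.MP_689404_al.SphereRank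

theorem result (r n : ℕ) (hr : 1 ≤ r) (hn : 1 ≤ n) :
    IsGreatest {m : ℕ | ∃ A : Finset (FreeGroup (Fin r)), (∀ a ∈ A, a.norm = n) ∧
        Function.Injective (FreeGroup.lift (fun a : A => (a : FreeGroup (Fin r)))) ∧ A.card = m}
      (if Even n then (2 * r - 1) ^ (n / 2) else r * (2 * r - 1) ^ ((n - 1) / 2)) := by
  split_ifs with h
  · obtain ⟨k, hk⟩ := h
    obtain ⟨j, rfl⟩ : ∃ j, k = j + 1 := ⟨k - 1, by omega⟩
    have h2 : n / 2 = j + 1 := by omega
    rw [h2]
    constructor
    · obtain ⟨A, h3, h4, h5⟩ := Constr.lower_even r j hr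
      exact ⟨A, fun a ha => by rw [h3 a ha]; omega, h4, h5⟩
    · rintro m ⟨A, h3, h4, rfl⟩
      exact Upper.upper_even hr (j + 1) A (fun a ha => by rw [h3 a ha]; omega) h4
  · rw [Nat.not_even_iff_odd] at h
    obtain ⟨k, rfl⟩ := h
    have h2 : (2 * k + 1 - 1) / 2 = k := by omega
    rw [h2]
    constructor
    · obtain ⟨A, h3, h4, h5⟩ := Constr.lower_odd r k
      exact ⟨A, h3, h4, h5⟩
    · rintro m ⟨A, h3, h4, rfl⟩
      exact Upper.upper_odd hr k A (fun a ha => by rw [h3 a ha]) h4

end Pool.Agent.Results.MP_689404_al.SphereRank
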